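import Mathlib
import Pool.Agent.H.MP_d5a48f_an.A

set_option autoImplicit false

namespace Pool.Agent.H.MP_3a3e96_an

open Set Filter Topology Real

lemma barrier0 {ι : Type*} [Finite ι] (f f' : ι → ℝ → ℝ)
    (hd : ∀ k t, 0 ≤ t → HasDerivWithinAt (f k) (f' k t) (Ici 0) t) (h0 : ∀ k, f k 0 ≤ 0)
    (hb : ∀ t, 0 ≤ t → (∀ k, f k t ≤ 0) → ∀ k, f k t = 0 → f' k t < 0) :
    ∀ t, 0 ≤ t → ∀ k, f k t ≤ 0 := by
  intro T hT
  have hc : ∀ k, ContinuousOn (f k) (Ici 0) := fun k t ht => (hd k t ht).continuousWithinAt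
  have key : Icc 0 T ⊆ {t | ∀ k, f k t ≤ 0} := by
    apply IsClosed.Icc_subset_of_forall_mem_nhdsWithin
    · have : {t | ∀ k, f k t ≤ 0} ∩ Icc 0 T = Icc 0 T ∩ ⋂ k, (Icc 0 T ∩ f k ⁻¹' Iic 0) := by
        ext t
        simp only [mem_inter_iff, mem_setOf_eq, mem_iInter, mem_preimage, mem_Iic]
        exact ⟨fun h => ⟨h.2, fun k => ⟨h.2, h.1 k⟩⟩, fun h => ⟨fun k => (h.2 k).2, h.1⟩⟩
      rw [this]
      exact isClosed_Icc.inter (isClosed_iInter (fun k =>
        ((hc k).mono Icc_subset_Ici_self).preimage_isClosed_of_isClosed isClosed_Icc isClosed_Iic))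
    · exact h0
    · rintro x ⟨hx, hx0, -⟩
      have hsub : Ioi x ⊆ Ici (0 : ℝ) := fun y hy => hx0.trans (le_of_lt hy)
      have : ∀ k, ∀ᶠ t in 𝓝[>] x, f k t ≤ 0 := by
        intro k
        rcases (hx k).lt_or_eq with h | h
        · have h1 : ContinuousWithinAt (f k) (Ioi x) x := (hc k x hx0).mono hsub
          exact (h1.eventually (gt_mem_nhds h)).mono (fun _ h => h.le)
        · have h1 := (hd k x hx0).mono hsub
          rw [hasDerivWithinAt_iff_tendsto_slope' (by simp)] at h1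
          filter_upwards [h1.eventually (gt_mem_nhds (hb x hx0 hx k h)), self_mem_nhdsWithin]
            with t ht ht2
          rw [slope_def_field, h, sub_zero, div_neg_iff] at ht
          have : 0 < t - x := sub_pos.2 ht2
          rcases ht with ⟨_, h3⟩ | ⟨h3, _⟩
          · linarith
          · exact h3.le
      exact eventually_all.2 this
  exact key ⟨hT, le_rfl⟩

lemma barrier {ι : Type*} [Finite ι] (g g' : ι → ℝ → ℝ) (c : ι → ℝ)
    (hd : ∀ k t, 0 ≤ t → HasDerivWithinAt (g k) (g' k t) (Ici 0) t) (h0 : ∀ k, |g k 0| ≤ c k)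
    (hb : ∀ t, 0 ≤ t → (∀ k, |g k t| ≤ c k) → ∀ k,
      (g k t = c k → g' k t < 0) ∧ (-g k t = c k → -g' k t < 0)) :
    ∀ t, 0 ≤ t → ∀ k, |g k t| ≤ c k := by
  have := barrier0 (ι := ι × Bool)
    (fun q t => (if q.2 then g q.1 t else -g q.1 t) - c q.1)
    (fun q t => if q.2 then g' q.1 t else -g' q.1 t) ?_ ?_ ?_
  · intro t ht k
    have h1 := this t ht (k, true)
    have h2 := this t ht (k, false)
    simp only [if_true, Bool.false_eq_true, if_false] at h1 h2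
    rw [abs_le]; constructor <;> linarith
  · rintro ⟨k, b⟩ t ht
    cases b
    · simpa using (hd k t ht).neg.sub_const (c k)
    · simpa using (hd k t ht).sub_const (c k)
  · rintro ⟨k, b⟩
    have := abs_le.1 (h0 k)
    cases b <;> simp <;> linarith [this.1, this.2]
  · intro t ht h
    have h1 : ∀ k, |g k t| ≤ c k := by
      intro k
      have h1 := h (k, true)
      have h2 := h (k, false)
      simp only [if_true, Bool.false_eq_true, if_false] at h1 h2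
      rw [abs_le]; constructor <;> linarith
    rintro ⟨k, b⟩ h2
    cases b
    · simp only [Bool.false_eq_true, if_false] at h2 ⊢
      exact (hb t ht h1 k).2 (by linarith)
    · simp only [if_true] at h2 ⊢
      exact (hb t ht h1 k).1 (by linarith)

lemma sin_taylor (φ δ : ℝ) (h : |δ| ≤ 1) : |sin (φ + δ) - sin φ - δ * cos φ| ≤ δ ^ 2 := by
  have h1 : |cos δ - 1| ≤ δ ^ 2 / 2 := by
    rw [abs_le]
    constructor
    · linarith [one_sub_sq_div_two_le_cos (x := δ)]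
    · nlinarith [cos_le_one δ, sq_nonneg δ]
  have h2 : |sin δ - δ| ≤ δ ^ 2 / 2 := by
    have aux : ∀ x : ℝ, 0 < x → x ≤ 1 → |sin x - x| ≤ x ^ 2 / 2 := by
      intro x hx hx1
      have a1 := sin_gt_sub_cube hx
      have a2 := sin_lt hx
      rw [abs_le]
      constructor <;> nlinarith [sq_nonneg x]
    rcases lt_trichotomy δ 0 with h0 | rfl | h0
    · have := aux (-δ) (by linarith) (by linarith [(abs_le.1 h).1])
      rw [sin_neg, neg_sq] at this
      rw [← abs_neg]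
      convert this using 2
      ring
    · simp
    · exact aux δ h0 (abs_le.1 h).2
  have e : sin (φ + δ) - sin φ - δ * cos φ = sin φ * (cos δ - 1) + cos φ * (sin δ - δ) := by
    rw [sin_add]; ring
  rw [e]
  refine (abs_add_le _ _).trans ?_
  rw [abs_mul, abs_mul]
  have a1 := mul_le_mul (abs_sin_le_one φ) h1 (abs_nonneg _) zero_le_one
  have a2 := mul_le_mul (abs_cos_le_one φ) h2 (abs_nonneg _) zero_le_one
  linarith

noncomputable def hh (ρ φ : ℝ) : ℝ := (2 - ρ) * sin φ + ρ / 2 * (sin φ * cos φ)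

noncomputable def hh' (ρ φ : ℝ) : ℝ := (2 - ρ) * cos φ + ρ / 2 * (cos φ * cos φ - sin φ * sin φ)

lemma hh_bound {ρ : ℝ} (φ : ℝ) (h0 : 0 ≤ ρ) (h1 : ρ ≤ 1) : |hh ρ φ| ≤ 3 := by
  unfold hh
  have a1 := abs_le.1 (abs_sin_le_one φ)
  have a2 : |sin φ * cos φ| ≤ 1 := by
    rw [abs_mul]
    exact mul_le_one₀ (abs_sin_le_one φ) (abs_nonneg _) (abs_cos_le_one φ)
  have a3 := abs_le.1 a2
  rw [abs_le]
  constructor <;> nlinarith [a1.1, a1.2, a3.1, a3.2]

lemma hh'_bound {ρ : ℝ} (φ : ℝ) (h0 : 0 ≤ ρ) (h1 : ρ ≤ 1) : |hh' ρ φ| ≤ 3 := by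
  unfold hh'
  have a1 := abs_le.1 (abs_cos_le_one φ)
  have a2 := sin_sq_add_cos_sq φ
  have a3 : -1 ≤ cos φ * cos φ - sin φ * sin φ := by nlinarith [sq_nonneg (cos φ)]
  have a4 : cos φ * cos φ - sin φ * sin φ ≤ 1 := by nlinarith [sq_nonneg (sin φ)]
  rw [abs_le]
  constructor <;> nlinarith [a1.1, a1.2]

lemma delta_bound {δ h : ℝ} (hh : |h| ≤ 3) (hW : |δ * (1 + 1 / 1000 * h)| ≤ 1 / 200) :
    |δ| ≤ 1 / 100 := by
  have a := abs_le.1 hh
  rw [abs_mul, abs_of_pos (by linarith [a.1] : 0 < 1 + 1 / 1000 * h)] at hW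
  nlinarith [abs_nonneg δ, a.1]

lemma wneg {δ e a v R ρ φ : ℝ} (hρ0 : 49 / 100 ≤ ρ) (hρ1 : ρ ≤ 1) (he : |e| ≤ δ ^ 2)
    (ha : |a| ≤ 2 / 10 ^ 7) (hv : |v - 1| ≤ 21 / 10000) (hR0 : 0 ≤ R) (hR2 : R ≤ 2)
    (hR : |R - (2 - ρ + ρ * cos φ)| ≤ 1 / 20) (hW : δ * (1 + 1 / 1000 * hh ρ φ) = 1 / 200) :
    (a - 1 / 1000 * R * (δ * cos φ + e)) * (1 + 1 / 1000 * hh ρ φ) +
      δ * (1 / 1000 * (hh' ρ φ * v)) < 0 := by
  have b1 := hh_bound φ (by linarith : 0 ≤ ρ) hρ1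
  have b2 := hh'_bound φ (by linarith : 0 ≤ ρ) hρ1
  have hδ1 : |δ| ≤ 1 / 100 := delta_bound b1 (by rw [hW]; norm_num)
  obtain ⟨b11, b12⟩ := abs_le.1 b1
  have hδ0 : 4 / 1000 ≤ δ := by
    by_contra hc
    push Not at hc
    nlinarith
  have hδ2 := (abs_le.1 hδ1).2
  obtain ⟨E, hE⟩ : ∃ E, E = R - (2 - ρ + ρ * cos φ) := ⟨_, rfl⟩
  rw [← hE] at hR
  have P : -R * cos φ + hh' ρ φ = -E * cos φ - ρ / 2 := by
    unfold hh'
    rw [hE]
    linear_combination (-ρ / 2) * sin_sq_add_cos_sq φ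
  have c1 : |E * cos φ| ≤ 1 / 20 * 1 := by
    rw [abs_mul]; exact mul_le_mul hR (abs_cos_le_one φ) (abs_nonneg _) (by norm_num)
  have c2 : |hh ρ φ * (R * cos φ)| ≤ 3 * (2 * 1) := by
    rw [abs_mul, abs_mul, abs_of_nonneg hR0]
    exact mul_le_mul b1 (mul_le_mul hR2 (abs_cos_le_one φ) (abs_nonneg _) (by norm_num))
      (by positivity) (by norm_num)
  have c3 : |hh' ρ φ * (v - 1)| ≤ 3 * (21 / 10000) := by
    rw [abs_mul]; exact mul_le_mul b2 hv (abs_nonneg _) (by norm_num)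
  have hu : |1 + 1 / 1000 * hh ρ φ| ≤ 3 / 2 := by
    rw [abs_le]; constructor <;> linarith
  have c4 : |a * (1 + 1 / 1000 * hh ρ φ)| ≤ 2 / 10 ^ 7 * (3 / 2) := by
    rw [abs_mul]; exact mul_le_mul ha hu (abs_nonneg _) (by norm_num)
  have c5 : |R * e * (1 + 1 / 1000 * hh ρ φ)| ≤ 2 * (δ * (1 / 100)) * (3 / 2) := by
    rw [abs_mul, abs_mul, abs_of_nonneg hR0]
    refine mul_le_mul (mul_le_mul hR2 (he.trans ?_) (abs_nonneg _) (by norm_num)) hu
      (abs_nonneg _) (by linarith)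
    nlinarith
  have d1 : -R * cos φ + hh' ρ φ - 1 / 1000 * (hh ρ φ * (R * cos φ)) + hh' ρ φ * (v - 1) ≤
      -(18 / 100) := by
    rw [P]
    linarith [(abs_le.1 c1).1, (abs_le.1 c2).1, (abs_le.1 c3).2]
  have d2 := mul_le_mul_of_nonneg_left d1 (by linarith : 0 ≤ δ)
  have e1 : (a - 1 / 1000 * R * (δ * cos φ + e)) * (1 + 1 / 1000 * hh ρ φ) +
      δ * (1 / 1000 * (hh' ρ φ * v)) = a * (1 + 1 / 1000 * hh ρ φ) -
      1 / 1000 * (R * e * (1 + 1 / 1000 * hh ρ φ)) + 1 / 1000 * (δ * (-R * cos φ + hh' ρ φ -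
      1 / 1000 * (hh ρ φ * (R * cos φ)) + hh' ρ φ * (v - 1))) := by ring
  rw [e1]
  linarith [(abs_le.1 c4).2, (abs_le.1 c5).1]

variable {N : ℕ}

noncomputable def rhs (κ : ℝ) (w x : Fin N → ℝ) (i : Fin N) : ℝ :=
  w i - κ / N * ∑ j, (1 + cos (x j)) * sin (x i)

def IsSol (κ : ℝ) (w x₀ : Fin N → ℝ) (θ : ℝ → Fin N → ℝ) : Prop :=
  θ 0 = x₀ ∧ ∀ t, 0 ≤ t → ∀ i, HasDerivWithinAt (fun s => θ s i) (rhs κ w (θ t) i) (Ici 0) t

noncomputable def RR (x : Fin N → ℝ) : ℝ := (∑ j, (1 + cos (x j))) / N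

lemma rhs_eq (κ : ℝ) (w x : Fin N → ℝ) (i : Fin N) :
    rhs κ w x i = w i - κ * RR x * sin (x i) := by
  unfold rhs RR
  rw [← Finset.sum_mul]
  ring

lemma RR_nonneg (x : Fin N → ℝ) : 0 ≤ RR x :=
  div_nonneg (Finset.sum_nonneg (fun j _ => by linarith [neg_one_le_cos (x j)])) (by positivity)

lemma RR_le (hN : 0 < N) (x : Fin N → ℝ) : RR x ≤ 2 := by
  have hN' : (0 : ℝ) < N := by exact_mod_cast hN
  unfold RR
  rw [div_le_iff₀ hN']
  refine (Finset.sum_le_sum (g := fun _ => (2 : ℝ))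
    (fun j _ => by linarith [cos_le_one (x j)])).trans (le_of_eq ?_)
  simp [mul_comm]

lemma RR_lip (hN : 0 < N) (x y : Fin N → ℝ) : |RR x - RR y| ≤ dist x y := by
  have hN' : (0 : ℝ) < N := by exact_mod_cast hN
  unfold RR
  rw [← sub_div, ← Finset.sum_sub_distrib, abs_div, abs_of_pos hN', div_le_iff₀ hN']
  refine (Finset.abs_sum_le_sum_abs _ _).trans ((Finset.sum_le_sum (g := fun _ => dist x y)
    (fun j _ => ?_)).trans (le_of_eq ?_))
  · rw [add_sub_add_left_eq_sub]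
    exact (abs_cos_sub_cos_le _ _).trans (dist_le_pi_dist x y j)
  · simp [mul_comm]

lemma RS_bound (hN : 0 < N) (x : Fin N → ℝ) (a : ℝ) : |RR x * sin a| ≤ 2 := by
  rw [abs_mul, abs_of_nonneg (RR_nonneg x)]
  have := mul_le_mul (RR_le hN x) (abs_sin_le_one a) (abs_nonneg _) (by norm_num)
  linarith

lemma exists_sol (hN : 0 < N) (w x₀ : Fin N → ℝ) : ∃ θ, IsSol (1 / 1000) w x₀ θ := by
  have hL : LipschitzWith 1 (rhs (1 / 1000) w) := by
    apply LipschitzWith.of_dist_le_mul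
    intro x y
    rw [dist_pi_le_iff (by positivity)]
    intro i
    rw [Real.dist_eq, rhs_eq, rhs_eq]
    have a1 : |(RR x - RR y) * sin (x i)| ≤ dist x y * 1 := by
      rw [abs_mul]
      exact mul_le_mul (RR_lip hN x y) (abs_sin_le_one _) (abs_nonneg _) dist_nonneg
    have a2 : |RR y * (sin (x i) - sin (y i))| ≤ 2 * dist x y := by
      rw [abs_mul, abs_of_nonneg (RR_nonneg y)]
      exact mul_le_mul (RR_le hN y) ((abs_sin_sub_sin_le _ _).trans (dist_le_pi_dist x y i))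
        (abs_nonneg _) (by norm_num)
    have a3 := dist_nonneg (x := x) (y := y)
    rw [abs_le] at a1 a2 ⊢
    simp only [NNReal.coe_one]
    constructor <;> nlinarith [a1.1, a1.2, a2.1, a2.2]
  obtain ⟨α, h0, h1⟩ := MP_d5a48f_an.global_sol (L := ‖w‖₊ + 1) hL (fun x => by
    rw [pi_norm_le_iff_of_nonneg (by positivity)]
    intro i
    rw [rhs_eq, Real.norm_eq_abs]
    have a1 := abs_le.1 (RS_bound hN x (x i))
    have a2 : |w i| ≤ ‖w‖ := norm_le_pi_norm w i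
    have a3 := abs_le.1 a2
    simp only [NNReal.coe_add, coe_nnnorm, NNReal.coe_one]
    rw [abs_le]
    constructor <;> nlinarith [a1.1, a1.2, a3.1, a3.2]) x₀
  exact ⟨α, h0, fun t _ i => (hasDerivAt_pi.1 (h1 t) i).hasDerivWithinAt⟩

lemma RR_est (hN : 0 < N) (x : Fin N → ℝ) (B C : Finset (Fin N)) (hd : Disjoint B C)
    (hB : 49 / 100 * (N : ℝ) ≤ B.card) (hC : 49 / 100 * (N : ℝ) ≤ C.card) (φ : ℝ)
    (h1 : ∀ j ∈ B, |x j| ≤ 1 / 10) (h2 : ∀ j ∈ C, |x j - φ| ≤ 1 / 100) :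
    |RR x - (2 - C.card / N + C.card / N * cos φ)| ≤ 1 / 20 := by
  have hN' : (0 : ℝ) < N := by exact_mod_cast hN
  have e1 : RR x - (2 - C.card / N + C.card / N * cos φ) =
      (∑ j, (1 + cos (x j) - (2 - if j ∈ C then 1 - cos φ else 0))) / N := by
    unfold RR
    rw [Finset.sum_sub_distrib, Finset.sum_sub_distrib, Finset.sum_ite_mem, Finset.univ_inter]
    simp only [Finset.sum_const, Finset.card_univ, Fintype.card_fin, nsmul_eq_mul]
    field_simp
    ring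
  rw [e1, abs_div, abs_of_pos hN', div_le_iff₀ hN']
  refine (Finset.abs_sum_le_sum_abs _ _).trans ((Finset.sum_le_sum
    (g := fun j => (1 / 100 + 2 - if j ∈ B ∪ C then 2 else 0 : ℝ)) (fun j _ => ?_)).trans ?_)
  · by_cases hjC : j ∈ C
    · simp only [hjC, if_true, Finset.mem_union, or_true]
      have := (abs_cos_sub_cos_le (x j) φ).trans (h2 j hjC)
      rw [abs_le] at this ⊢
      constructor <;> linarith [this.1, this.2]
    · by_cases hjB : j ∈ B
      · simp only [hjC, if_false, Finset.mem_union, hjB, true_or, if_true]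
        have a1 := one_sub_sq_div_two_le_cos (x := x j)
        have a2 := abs_le.1 (h1 j hjB)
        rw [abs_le]
        constructor <;> nlinarith [cos_le_one (x j), a2.1, a2.2]
      · simp only [hjC, if_false, Finset.mem_union, hjB, or_self]
        rw [abs_le]
        constructor <;> linarith [cos_le_one (x j), neg_one_le_cos (x j)]
  · rw [Finset.sum_sub_distrib, Finset.sum_ite_mem, Finset.univ_inter]
    simp only [Finset.sum_const, Finset.card_univ, Fintype.card_fin, nsmul_eq_mul,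
      Finset.card_union_of_disjoint hd]
    push_cast
    linarith

def Death (B : Finset (Fin N)) (θ : ℝ → Fin N → ℝ) : Prop :=
  ∀ i ∈ B, ∃ M : ℝ, ∀ t, 0 ≤ t → |θ t i| ≤ M

def Locking (C : Finset (Fin N)) (θ : ℝ → Fin N → ℝ) : Prop :=
  (∀ i ∈ C, ∀ j ∈ C, ∃ M : ℝ, ∀ t, 0 ≤ t → |θ t i - θ t j| ≤ M) ∧
    ∀ i ∈ C, ¬ Tendsto (fun t => θ t i / t) atTop (𝓝 0)

lemma core (hN : 0 < N) (w : Fin N → ℝ) (B C : Finset (Fin N)) (hd : Disjoint B C)
    (hB : 49 / 100 * (N : ℝ) ≤ B.card) (hC : 49 / 100 * (N : ℝ) ≤ C.card)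
    (hwB : ∀ i ∈ B, |w i| ≤ 1 / 10 ^ 7) (hwC : ∀ i ∈ C, |w i - 1| ≤ 1 / 10 ^ 7)
    (θ : ℝ → Fin N → ℝ) (hθ : IsSol (1 / 1000) w 0 θ) : Death B θ ∧ Locking C θ := by
  have hN' : (0 : ℝ) < N := by exact_mod_cast hN
  have hCpos : 0 < C.card := by
    have : (0 : ℝ) < C.card := lt_of_lt_of_le (by positivity) hC
    exact_mod_cast this
  obtain ⟨i0, hi0⟩ := Finset.card_pos.1 hCpos
  set ρ : ℝ := C.card / N with hρ
  have hρ0 : 49 / 100 ≤ ρ := by rw [hρ, le_div_iff₀ hN']; exact hC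
  have hρ1 : ρ ≤ 51 / 100 := by
    rw [hρ, div_le_iff₀ hN']
    have h1 : (B ∪ C).card ≤ N := by simpa using Finset.card_le_univ (B ∪ C)
    rw [Finset.card_union_of_disjoint hd] at h1
    have h2 : (B.card : ℝ) + C.card ≤ N := by exact_mod_cast h1
    linarith
  have hv : ∀ x : Fin N → ℝ, ∀ i ∈ C, |rhs (1 / 1000) w x i - 1| ≤ 21 / 10000 := by
    intro x i hi
    rw [rhs_eq]
    have a1 := abs_le.1 (RS_bound hN x (x i))
    have a2 := abs_le.1 (hwC i hi)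
    rw [abs_le]
    constructor <;> nlinarith [a1.1, a1.2, a2.1, a2.2]
  have key := barrier (ι := B ⊕ C)
    (Sum.elim (fun b t => θ t b) (fun i t => (θ t i - θ t i0) * (1 + 1 / 1000 * hh ρ (θ t i0))))
    (Sum.elim (fun b t => rhs (1 / 1000) w (θ t) b) (fun i t =>
      (rhs (1 / 1000) w (θ t) i - rhs (1 / 1000) w (θ t) i0) * (1 + 1 / 1000 * hh ρ (θ t i0)) +
      (θ t i - θ t i0) * (1 / 1000 * (hh' ρ (θ t i0) * rhs (1 / 1000) w (θ t) i0))))
    (Sum.elim (fun _ => 1 / 10) (fun _ => 1 / 200)) ?_ ?_ ?_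
  · have hδ : ∀ t, 0 ≤ t → ∀ i ∈ C, |θ t i - θ t i0| ≤ 1 / 100 := fun t ht i hi =>
      delta_bound (hh_bound _ (by linarith) (by linarith)) (key t ht (Sum.inr ⟨i, hi⟩))
    refine ⟨fun i hi => ⟨1 / 10, fun t ht => key t ht (Sum.inl ⟨i, hi⟩)⟩,
      fun i hi j hj => ⟨1, fun t ht => ?_⟩, fun i hi hT => ?_⟩
    · have a1 := abs_le.1 (hδ t ht i hi)
      have a2 := abs_le.1 (hδ t ht j hj)
      rw [abs_le]
      constructor <;> linarith [a1.1, a1.2, a2.1, a2.2]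
    · have h1 := barrier0 (ι := Unit) (fun _ t => t / 2 - θ t i)
        (fun _ t => 1 / 2 - rhs (1 / 1000) w (θ t) i)
        (fun _ t ht => ((hasDerivWithinAt_id t _).div_const 2).sub (hθ.2 t ht i))
        (fun _ => by simp [hθ.1]) (fun t _ _ _ _ => by linarith [(abs_le.1 (hv (θ t) i hi)).1])
      obtain ⟨t, ht1, ht2⟩ := ((hT.eventually (gt_mem_nhds (by norm_num : (0 : ℝ) < 1 / 2))).and
        (eventually_gt_atTop 0)).exists
      have := h1 t ht2.le ()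
      rw [div_lt_iff₀ ht2] at ht1
      linarith
  · rintro (b | i) t ht
    · exact hθ.2 t ht b
    · have h0 := hθ.2 t ht i0
      have h1 : HasDerivWithinAt (fun s => hh ρ (θ s i0))
          (hh' ρ (θ t i0) * rhs (1 / 1000) w (θ t) i0) (Ici 0) t := by
        unfold hh hh'
        exact ((h0.sin.const_mul (2 - ρ)).add
          ((h0.sin.mul h0.cos).const_mul (ρ / 2))).congr_deriv (by ring)
      exact ((hθ.2 t ht i).sub h0).mul ((h1.const_mul (1 / 1000)).const_add 1)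
  · rintro (b | i) <;> simp [hθ.1]
  · intro t _ hk
    have hδ : ∀ i ∈ C, |θ t i - θ t i0| ≤ 1 / 100 := fun i hi =>
      delta_bound (hh_bound _ (by linarith) (by linarith)) (hk (Sum.inr ⟨i, hi⟩))
    have hR := RR_est hN (θ t) B C hd hB hC (θ t i0) (fun j hj => hk (Sum.inl ⟨j, hj⟩)) hδ
    rw [← hρ] at hR
    rintro (b | i)
    · simp only [Sum.elim_inl, rhs_eq]
      have a1 := abs_le.1 (hwB b b.2)
      have a2 : 1 / 2 ≤ RR (θ t) := by
        have := neg_one_le_cos (θ t i0)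
        nlinarith [(abs_le.1 hR).1]
      have a3 : 9 / 100 ≤ sin (1 / 10 : ℝ) := by
        have := sin_gt_sub_cube (x := 1 / 10) (by norm_num)
        linarith
      have a4 := mul_le_mul a2 a3 (by norm_num) (RR_nonneg _)
      constructor
      · intro h
        rw [h]
        nlinarith [a1.2]
      · intro h
        have : θ t b = -(1 / 10) := by linarith
        rw [this, sin_neg]
        nlinarith [a1.1]
    · simp only [Sum.elim_inr]
      have a1 := sin_taylor (θ t i0) (θ t i - θ t i0) ((hδ i i.2).trans (by norm_num))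
      rw [add_sub_cancel] at a1
      have a2 : |w i - w i0| ≤ 2 / 10 ^ 7 := by
        have b1 := abs_le.1 (hwC i i.2)
        have b2 := abs_le.1 (hwC i0 hi0)
        rw [abs_le]
        constructor <;> linarith [b1.1, b1.2, b2.1, b2.2]
      have e : rhs (1 / 1000) w (θ t) i - rhs (1 / 1000) w (θ t) i0 = (w i - w i0) -
          1 / 1000 * RR (θ t) * ((θ t i - θ t i0) * cos (θ t i0) +
            (sin (θ t i) - sin (θ t i0) - (θ t i - θ t i0) * cos (θ t i0))) := by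
        rw [rhs_eq, rhs_eq]; ring
      rw [e]
      constructor
      · intro h
        exact wneg hρ0 (by linarith) a1 a2 (hv _ i0 hi0) (RR_nonneg _) (RR_le hN _) hR h
      · intro h
        have := wneg (δ := -(θ t i - θ t i0))
          (e := -(sin (θ t i) - sin (θ t i0) - (θ t i - θ t i0) * cos (θ t i0)))
          (a := -(w i - w i0)) hρ0 (by linarith) (by rw [abs_neg, neg_sq]; exact a1)
          (by rw [abs_neg]; exact a2) (hv (θ t) i0 hi0) (RR_nonneg _) (RR_le hN _) hR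
          (by rw [← h]; ring)
        refine lt_of_eq_of_lt ?_ this
        ring

theorem main : ∃ ρ₁ ρ₂ γ κ : ℝ, ρ₁ ∈ Ioc (0 : ℝ) 1 ∧ ρ₂ ∈ Ioc (0 : ℝ) 1 ∧ γ ∈ Ioc (0 : ℝ) 1 ∧
    ρ₁ + ρ₂ < 1 ∧ 0 < κ ∧
    ∀ (N : ℕ), 1 ≤ N → ∀ (w : Fin N → ℝ) (B C : Finset (Fin N)), Disjoint B C →
      ρ₁ * N ≤ B.card → ρ₂ * N ≤ C.card → (∀ i ∈ B, w i ∈ Icc (-γ) γ) →
      (∀ i ∈ C, w i ∈ Icc (1 - γ) (1 + γ)) →
      ∃ x₀ : Fin N → ℝ, (∃ θ, IsSol κ w x₀ θ) ∧
        ∀ θ, IsSol κ w x₀ θ → Death B θ ∧ Locking C θ := by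
  refine ⟨49 / 100, 49 / 100, 1 / 10 ^ 7, 1 / 1000, by norm_num, by norm_num, by norm_num,
    by norm_num, by norm_num, fun N hN w B C hd hB hC hwB hwC =>
      ⟨0, exists_sol hN w 0, fun θ hθ => core hN w B C hd hB hC (fun i hi => abs_le.2 (hwB i hi))
        (fun i hi => ?_) θ hθ⟩⟩
  have := hwC i hi
  rw [abs_le]
  constructor <;> linarith [this.1, this.2]

end Pool.Agent.H.MP_3a3e96_an
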